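import Mathlib
import Pool.Agent.N792.Defs2
import Pool.Agent.N792.Tri
import Pool.Agent.N792.BS
import Pool.Agent.N792.FlL

set_option autoImplicit false
set_option maxHeartbeats 4000000

namespace Pool.Agent.N792.Gap

open Finset Filter Topology
open Pool.Agent.H469R2.NK (e)

/-! ### Eventual inequalities -/

lemma ev_pow (u v C : ℝ) (k : ℕ) (h : u < v) :
    ∀ᶠ x : ℕ in atTop, C * (x : ℝ) ^ u * Real.log x ^ k ≤ (x : ℝ) ^ v := by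
  have h1 := (isLittleO_log_rpow_rpow_atTop (k : ℝ) (sub_pos.2 h)).def
    (show (0 : ℝ) < 1 / (|C| + 1) by positivity)
  have h2 := tendsto_natCast_atTop_atTop (R := ℝ) |>.eventually h1
  filter_upwards [h2, eventually_ge_atTop 1] with x hx hx1
  have hx0 : (1 : ℝ) ≤ x := by exact_mod_cast hx1
  have hx00 : (0 : ℝ) < x := by linarith
  rw [Real.rpow_natCast, Real.norm_eq_abs, Real.norm_eq_abs, abs_of_nonneg (pow_nonneg (Real.log_nonneg hx0) _),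
    abs_of_nonneg (Real.rpow_nonneg hx00.le _)] at hx
  have h3 : (x : ℝ) ^ v = (x : ℝ) ^ u * (x : ℝ) ^ (v - u) := by
    rw [← Real.rpow_add hx00]; congr 1; ring
  rw [h3]
  have h4 : 0 ≤ (x : ℝ) ^ u := Real.rpow_nonneg hx00.le _
  have h5 : (0 : ℝ) < |C| + 1 := by positivity
  have h6 : Real.log x ^ k * (|C| + 1) ≤ (x : ℝ) ^ (v - u) := by
    rw [div_mul_eq_mul_div, one_mul, le_div_iff₀ h5] at hx
    exact hx
  have h7 : 0 ≤ Real.log (x : ℝ) ^ k := pow_nonneg (Real.log_nonneg hx0) _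
  calc C * (x : ℝ) ^ u * Real.log x ^ k ≤ (|C| + 1) * (x : ℝ) ^ u * Real.log x ^ k := by
        apply mul_le_mul_of_nonneg_right _ h7
        apply mul_le_mul_of_nonneg_right _ h4
        linarith [le_abs_self C]
    _ = (x : ℝ) ^ u * (Real.log x ^ k * (|C| + 1)) := by ring
    _ ≤ (x : ℝ) ^ u * (x : ℝ) ^ (v - u) := mul_le_mul_of_nonneg_left h6 h4

lemma ev_log (C : ℝ) : ∀ᶠ x : ℕ in atTop, C ≤ Real.log x :=
  (Real.tendsto_log_atTop.comp tendsto_natCast_atTop_atTop).eventually_ge_atTop C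

/-! ### The sieve bound -/

lemma V1q_le : ∃ C : ℝ, 0 < C ∧ ∀ J : ℕ, V1q 1 (2 ^ 2 ^ J) ≤ C / 2 ^ J := by
  obtain ⟨c, C, hc, hC, h⟩ := Pool.Agent.Helper112.LP.mertens_prod
  refine ⟨C, hC, fun J => (?_ : _ ≤ _).trans (h J).2⟩
  unfold V1q
  have hsub : (range (2 ^ 2 ^ J)).filter Nat.Prime ⊆ (Icc 1 (2 ^ 2 ^ J)).filter (fun p => p.Prime ∧ ¬ p ∣ 1) := by
    intro p hp
    rw [mem_filter, mem_range] at hp
    rw [mem_filter, mem_Icc]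
    exact ⟨⟨hp.2.one_lt.le, hp.1.le⟩, hp.2, fun hd => hp.2.one_lt.ne' (Nat.dvd_one.1 hd)⟩
  have hb : ∀ p : ℕ, p.Prime → 0 ≤ 1 - 1 / (p : ℝ) ∧ 1 - 1 / (p : ℝ) ≤ 1 := by
    intro p hp
    have h2 : (1 : ℝ) ≤ p := by exact_mod_cast hp.one_lt.le
    have h3 : 1 / (p : ℝ) ≤ 1 := by rw [div_le_one (by linarith)]; exact h2
    have h4 : 0 ≤ 1 / (p : ℝ) := by positivity
    constructor <;> linarith
  rw [← Finset.prod_sdiff hsub]
  have h1 : ∏ p ∈ (Icc 1 (2 ^ 2 ^ J)).filter (fun p => p.Prime ∧ ¬ p ∣ 1) \ (range (2 ^ 2 ^ J)).filter Nat.Prime,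
      (1 - 1 / (p : ℝ)) ≤ 1 := by
    apply Finset.prod_le_one
    · intro p hp
      exact (hb p (mem_filter.1 (Finset.mem_sdiff.1 hp).1).2.1).1
    · intro p hp
      exact (hb p (mem_filter.1 (Finset.mem_sdiff.1 hp).1).2.1).2
  have h2 : 0 ≤ ∏ p ∈ (range (2 ^ 2 ^ J)).filter Nat.Prime, (1 - 1 / (p : ℝ)) := by
    apply Finset.prod_nonneg
    intro p hp
    exact (hb p (mem_filter.1 hp).2).1
  calc _ ≤ 1 * ∏ p ∈ (range (2 ^ 2 ^ J)).filter Nat.Prime, (1 - 1 / (p : ℝ)) := mul_le_mul_of_nonneg_right h1 h2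
    _ = _ := one_mul _

open Classical in
theorem sieve : ∃ c1 : ℝ, 0 < c1 ∧ ∀ η : ℝ, 0 < η → η ≤ 1 / 10 → ∃ x0 : ℕ, ∀ x : ℕ, x0 ≤ x →
    ∀ z k1 k2 : ℕ, (x : ℝ) ^ η ≤ z → k1 ≤ k2 → (x : ℝ) ^ (1 / 2 : ℝ) ≤ (k2 : ℝ) - k1 →
    (#((Ioc k1 k2).filter (Rough z)) : ℝ) ≤ c1 * (((k2 : ℝ) - k1) / (η * Real.log x)) := by
  obtain ⟨C1, hC1, H⟩ := fl_lin
  obtain ⟨C, hC, hV⟩ := V1q_le
  have hC1r : (1 : ℝ) ≤ C1 := by exact_mod_cast hC1
  obtain ⟨κ, hκ⟩ : ∃ κ : ℝ, κ = 20 * (C1 : ℝ) ^ 2 := ⟨_, rfl⟩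
  have hκ0 : 20 ≤ κ := by rw [hκ]; nlinarith
  have hl2 : 0 < Real.log 2 := Real.log_pos (by norm_num)
  refine ⟨4 * C * κ * Real.log 2 + 1, by positivity, ?_⟩
  intro η hη hη1
  have hev : ∀ᶠ x : ℕ in atTop, κ * Real.log 2 / η ≤ Real.log x ∧
      (C1 * (1 / Real.log 2 + 2)) * (x : ℝ) ^ (1 / 200 : ℝ) * Real.log x ^ 2 ≤ (x : ℝ) ^ (1 / 2 : ℝ) ∧
      1 ≤ Real.log x ∧ 1 ≤ x :=
    (ev_log _).and ((ev_pow _ _ _ 2 (by norm_num)).and ((ev_log 1).and (eventually_ge_atTop 1)))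
  obtain ⟨x0, hx0⟩ := eventually_atTop.1 hev
  refine ⟨x0, ?_⟩
  intro x hx z k1 k2 hz hk hlen
  obtain ⟨h1, h2, h3, h4⟩ := hx0 x hx
  have hxr : (1 : ℝ) ≤ x := by exact_mod_cast h4
  have hxp : (0 : ℝ) < x := by linarith
  obtain ⟨L, hL⟩ : ∃ L : ℝ, L = Real.log x := ⟨_, rfl⟩
  rw [← hL] at h1 h2 h3 ⊢
  obtain ⟨t, ht⟩ : ∃ t : ℝ, t = η / κ * L / Real.log 2 := ⟨_, rfl⟩
  have ht1 : 1 ≤ t := by
    rw [ht, le_div_iff₀ hl2, one_mul]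
    rw [div_le_iff₀ hη] at h1
    rw [div_mul_eq_mul_div, le_div_iff₀ (by linarith)]
    linarith
  have htf : ⌊t⌋₊ ≠ 0 := by
    have := Nat.floor_pos.2 ht1
    omega
  obtain ⟨J, hJ⟩ : ∃ J : ℕ, J = Nat.log 2 ⌊t⌋₊ := ⟨_, rfl⟩
  have hJ1 : (2 : ℝ) ^ J ≤ t := by
    have a1 : 2 ^ J ≤ ⌊t⌋₊ := by rw [hJ]; exact Nat.pow_log_le_self 2 htf
    have a2 : ((2 ^ J : ℕ) : ℝ) ≤ ⌊t⌋₊ := by exact_mod_cast a1
    have a3 : (⌊t⌋₊ : ℝ) ≤ t := Nat.floor_le (by linarith)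
    push_cast at a2
    linarith
  have hJ2 : t < 2 * 2 ^ J := by
    have a1 : ⌊t⌋₊ < 2 ^ (J + 1) := by rw [hJ]; exact Nat.lt_pow_succ_log_self (by norm_num) _
    have a2 : ((⌊t⌋₊ + 1 : ℕ) : ℝ) ≤ ((2 ^ (J + 1) : ℕ) : ℝ) := by exact_mod_cast a1
    have a3 := Nat.lt_floor_add_one t
    push_cast at a2
    rw [pow_succ] at a2
    linarith
  -- the level
  have hw1 : ((2 ^ 2 ^ J : ℕ) : ℝ) ≤ (x : ℝ) ^ (η / κ) := by
    have b1 : ((2 ^ 2 ^ J : ℕ) : ℝ) = (2 : ℝ) ^ ((2 : ℝ) ^ J) := by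
      push_cast
      rw [← Real.rpow_natCast]
      push_cast
      rfl
    have b2 : (x : ℝ) ^ (η / κ) = (2 : ℝ) ^ t := by
      rw [Real.rpow_def_of_pos hxp, Real.rpow_def_of_pos (by norm_num : (0 : ℝ) < 2), ← hL, ht]
      congr 1
      field_simp
    rw [b1, b2]
    exact Real.rpow_le_rpow_of_exponent_le (by norm_num) hJ1
  have hw2 : 2 ^ 2 ^ J ≤ z := by
    have c1 : (x : ℝ) ^ (η / κ) ≤ (x : ℝ) ^ η := by
      apply Real.rpow_le_rpow_of_exponent_le hxr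
      rw [div_le_iff₀ (by linarith)]
      nlinarith
    exact_mod_cast (hw1.trans c1).trans hz
  have hsub : (Ioc k1 k2).filter (Rough z) ⊆
      (Ioc k1 k2).filter (fun k : ℕ => k ≡ 0 [MOD 1] ∧ Rough (2 ^ 2 ^ J) k) := by
    intro k hk
    rw [mem_filter] at hk ⊢
    exact ⟨hk.1, Nat.modEq_one, hk.2.1, fun p hp hd => lt_of_le_of_lt hw2 (hk.2.2 p hp hd)⟩
  have hcard : (#((Ioc k1 k2).filter (Rough z)) : ℝ) ≤
      #((Ioc k1 k2).filter (fun k : ℕ => k ≡ 0 [MOD 1] ∧ Rough (2 ^ 2 ^ J) k)) := by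
    exact_mod_cast Finset.card_le_card hsub
  have hm := H C1 le_rfl J 1 0 k1 k2 le_rfl (by norm_num) hk
  have hm1 := (abs_le.1 hm).2
  have hk' : (0 : ℝ) ≤ (k2 : ℝ) - k1 := by
    have : (k1 : ℝ) ≤ k2 := by exact_mod_cast hk
    linarith
  obtain ⟨D, hD⟩ : ∃ D : ℝ, D = (k2 : ℝ) - k1 := ⟨_, rfl⟩
  rw [← hD] at hm1 hk' hlen ⊢
  have hV' : V1q 1 (2 ^ 2 ^ J) ≤ 2 * C * κ * Real.log 2 / (η * L) := by
    refine (hV J).trans ?_
    rw [div_le_div_iff₀ (by positivity) (by positivity)]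
    have e1 : η * L = t * (κ * Real.log 2) := by rw [ht]; field_simp
    rw [e1]
    have : C * (t * (κ * Real.log 2)) = (C * κ * Real.log 2) * t := by ring
    rw [this]
    have e2 : 2 * C * κ * Real.log 2 * 2 ^ J = (C * κ * Real.log 2) * (2 * 2 ^ J) := by ring
    rw [e2]
    exact mul_le_mul_of_nonneg_left hJ2.le (by positivity)
  have hb0 : ((1 : ℝ) / 2) ^ C1 ≤ 1 := pow_le_one₀ (by norm_num) (by norm_num)
  have hV0 : 0 ≤ V1q 1 (2 ^ 2 ^ J) := by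
    unfold V1q
    apply Finset.prod_nonneg
    intro p hp
    have h2 : (1 : ℝ) ≤ p := by exact_mod_cast (mem_Icc.1 (mem_filter.1 hp).1).1
    have h3 : 1 / (p : ℝ) ≤ 1 := by rw [div_le_one (by linarith)]; exact h2
    linarith
  -- the error term
  have herr : (C1 : ℝ) * (J + 2) * ((2 ^ 2 ^ J : ℕ) : ℝ) ^ (C1 * C1) ≤ D / (η * L) := by
    have d1 : ((2 ^ 2 ^ J : ℕ) : ℝ) ^ (C1 * C1) ≤ (x : ℝ) ^ (1 / 200 : ℝ) := by
      calc ((2 ^ 2 ^ J : ℕ) : ℝ) ^ (C1 * C1) ≤ ((x : ℝ) ^ (η / κ)) ^ (C1 * C1) :=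
            pow_le_pow_left₀ (Nat.cast_nonneg _) hw1 _
        _ = (x : ℝ) ^ (η / κ * ((C1 * C1 : ℕ) : ℝ)) := by
            rw [Real.rpow_mul hxp.le, Real.rpow_natCast]
        _ ≤ (x : ℝ) ^ (1 / 200 : ℝ) := by
            apply Real.rpow_le_rpow_of_exponent_le hxr
            rw [hκ]
            push_cast
            have : η / (20 * (C1 : ℝ) ^ 2) * (C1 * C1) = η / 20 := by
              field_simp
            rw [this]; linarith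
    have d2 : (J : ℝ) + 2 ≤ (1 / Real.log 2 + 2) * L := by
      have e1 : (J : ℝ) ≤ 2 ^ J := by
        have : J ≤ 2 ^ J := Nat.lt_two_pow_self.le
        exact_mod_cast this
      have e2 : t ≤ 1 / Real.log 2 * L := by
        rw [ht]
        have : η / κ ≤ 1 := by rw [div_le_one (by linarith)]; linarith
        have e3 : η / κ * L / Real.log 2 ≤ 1 * L / Real.log 2 := by gcongr
        calc _ ≤ _ := e3
          _ = _ := by ring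
      have e4 : (1 / Real.log 2 + 2) * L = 1 / Real.log 2 * L + 2 * L := by ring
      rw [e4]
      linarith
    have d3 : (C1 : ℝ) * (J + 2) * ((2 ^ 2 ^ J : ℕ) : ℝ) ^ (C1 * C1) ≤
        (C1 : ℝ) * ((1 / Real.log 2 + 2) * L) * (x : ℝ) ^ (1 / 200 : ℝ) := by
      apply mul_le_mul _ d1 (by positivity) (by positivity)
      exact mul_le_mul_of_nonneg_left d2 (by positivity)
    refine d3.trans ?_
    rw [le_div_iff₀ (by positivity)]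
    have d4 : C1 * ((1 / Real.log 2 + 2) * L) * (x : ℝ) ^ (1 / 200 : ℝ) * (η * L) ≤
        C1 * (1 / Real.log 2 + 2) * (x : ℝ) ^ (1 / 200 : ℝ) * L ^ 2 := by
      have : C1 * ((1 / Real.log 2 + 2) * L) * (x : ℝ) ^ (1 / 200 : ℝ) * (η * L) =
        η * (C1 * (1 / Real.log 2 + 2) * (x : ℝ) ^ (1 / 200 : ℝ) * L ^ 2) := by ring
      rw [this]
      have h5 : 0 ≤ C1 * (1 / Real.log 2 + 2) * (x : ℝ) ^ (1 / 200 : ℝ) * L ^ 2 := by positivity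
      exact mul_le_of_le_one_left h5 (by linarith)
    linarith
  have hfin : 2 * (D * V1q 1 (2 ^ 2 ^ J)) ≤ 4 * C * κ * Real.log 2 * (D / (η * L)) := by
    have := mul_le_mul_of_nonneg_left hV' hk'
    calc 2 * (D * V1q 1 (2 ^ 2 ^ J)) ≤ 2 * (D * (2 * C * κ * Real.log 2 / (η * L))) := by linarith
      _ = _ := by ring
  have hdv : D / ((1 : ℕ) : ℝ) * V1q 1 (2 ^ 2 ^ J) = D * V1q 1 (2 ^ 2 ^ J) := by simp
  rw [hdv] at hm1
  have h7 : 0 ≤ D * V1q 1 (2 ^ 2 ^ J) := mul_nonneg hk' hV0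
  have h8 : ((1 : ℝ) / 2) ^ C1 * (D * V1q 1 (2 ^ 2 ^ J)) ≤ D * V1q 1 (2 ^ 2 ^ J) := mul_le_of_le_one_left h7 hb0
  have e9 : ((2 : ℝ) ^ 2 ^ J) ^ (C1 * C1) = ((2 ^ 2 ^ J : ℕ) : ℝ) ^ (C1 * C1) := by push_cast; rfl
  rw [e9] at hm1
  rw [add_mul, one_mul]
  linarith

end Pool.Agent.N792.Gap
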