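import Mathlib
import Pool.Agent.N138.Gap.G1

set_option autoImplicit false
set_option maxHeartbeats 4000000

namespace Pool.Agent.N792.Gap

open Finset Filter Topology
open Pool.Agent.H469R2.NK (e)

/-! ### The exponential sum -/

theorem exp_bound (a m : ℝ) (ha : 1 ≤ a) (hm : 1 ≤ m) : ∃ C2 : ℝ, 0 < C2 ∧ ∀ ε : ℝ, 0 ≤ ε → ∀ x J K : ℕ,
    1 ≤ x → 1 ≤ J → 1 ≤ K → (J : ℝ) * K ≤ m * (x : ℝ) ^ 2 → (J : ℝ) ≤ m * (x : ℝ) ^ (1 + ε) →
    (K : ℝ) ≤ m * (x : ℝ) ^ (1 + ε) → (x : ℝ) ^ (1 - ε) ≤ 4 * K →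
    ∀ R ⊆ Ioc J (2 * J), ∀ S ⊆ Ioc K (2 * K), ∀ h : ℕ, 1 ≤ h →
    ‖∑ r ∈ R, ∑ s ∈ S, e (h / √a * (√(r : ℝ) * √(s : ℝ)))‖ ≤ C2 * (x : ℝ) ^ (3 / 2 + ε) * √(h : ℝ) := by
  obtain ⟨C0, hC0, H⟩ := bs
  obtain ⟨D, hD⟩ : ∃ D : ℝ, D = C0 * m * (1 + 2 * √m * √a) * (1 + √m + m) := ⟨_, rfl⟩
  have hD0 : 0 < D := by rw [hD]; positivity
  refine ⟨√D, Real.sqrt_pos.2 hD0, ?_⟩
  intro ε hε x J K hx hJ hK hJK hJm hKm hKx R hR S hS h hh
  have hxr : (1 : ℝ) ≤ x := by exact_mod_cast hx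
  have hxp : (0 : ℝ) < x := by linarith
  have hJr : (1 : ℝ) ≤ J := by exact_mod_cast hJ
  have hKr : (1 : ℝ) ≤ K := by exact_mod_cast hK
  have hhr : (1 : ℝ) ≤ h := by exact_mod_cast hh
  have hsa : 1 ≤ √a := by rw [Real.one_le_sqrt]; exact ha
  have hsa0 : 0 < √a := by linarith
  have hsm : 1 ≤ √m := by rw [Real.one_le_sqrt]; exact hm
  have key := H J K 1 (h / √a) 1 1 R S (fun _ => 1) (fun _ => 1) le_rfl hJ hK (by positivity) zero_le_one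
    zero_le_one (fun r hr => by simpa using mem_Ioc.1 (hR hr)) (fun r hr => by simpa using mem_Ioc.1 (hS hr))
    (fun _ _ _ _ => Nat.modEq_one) (fun _ _ _ _ => Nat.modEq_one) (fun _ _ => by simp) (fun _ _ => by simp)
  simp only [one_mul, one_pow, mul_one, Nat.cast_one, div_one] at key
  obtain ⟨X, hX⟩ : ∃ X : ℝ, X = (x : ℝ) ^ ε := ⟨_, rfl⟩
  have hX1 : 1 ≤ X := by rw [hX]; exact Real.one_le_rpow hxr hε
  have hX0 : 0 < X := by linarith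
  have p1 : (x : ℝ) ^ (1 + ε) = x * X := by rw [Real.rpow_add hxp, Real.rpow_one, hX]
  have p2 : (x : ℝ) ^ (1 - ε) = x / X := by rw [Real.rpow_sub hxp, Real.rpow_one, hX]
  rw [p1] at hJm hKm
  rw [p2] at hKx
  -- the ratio
  have f1 : √((J : ℝ) / K) ≤ 2 * √m * X := by
    apply Real.sqrt_le_iff.2
    refine ⟨by positivity, ?_⟩
    rw [div_le_iff₀ (by linarith)]
    have : (2 * √m * X) ^ 2 * K = m * X ^ 2 * (4 * K) := by
      rw [mul_pow, mul_pow, Real.sq_sqrt (by linarith)]; ring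
    rw [this]
    calc (J : ℝ) ≤ m * (x * X) := hJm
      _ = m * X ^ 2 * (x / X) := by field_simp
      _ ≤ m * X ^ 2 * (4 * K) := mul_le_mul_of_nonneg_left hKx (by positivity)
  have f2 : 1 + √((J : ℝ) / K) / (h / √a) ≤ (1 + 2 * √m * √a) * X := by
    have : √((J : ℝ) / K) / (h / √a) ≤ 2 * √m * X * √a := by
      rw [div_div_eq_mul_div, div_le_iff₀ (by linarith)]
      calc √((J : ℝ) / K) * √a ≤ 2 * √m * X * √a := mul_le_mul_of_nonneg_right f1 hsa0.le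
        _ ≤ 2 * √m * X * √a * h := le_mul_of_one_le_right (by positivity) hhr
    calc _ ≤ 1 + 2 * √m * X * √a := by linarith
      _ ≤ X + 2 * √m * X * √a := by linarith
      _ = _ := by ring
  have f3 : h / √a * √((J : ℝ) * K) ≤ h * (√m * x) := by
    have : √((J : ℝ) * K) ≤ √m * x := by
      apply Real.sqrt_le_iff.2
      refine ⟨by positivity, ?_⟩
      rw [mul_pow, Real.sq_sqrt (by linarith)]
      exact hJK
    have h1 : (h : ℝ) / √a ≤ h := div_le_self (by linarith) hsa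
    exact mul_le_mul h1 this (Real.sqrt_nonneg _) (by linarith)
  have f4 : 1 + h / √a * √((J : ℝ) * K) + K ≤ (1 + √m + m) * (h * (x * X)) := by
    have g1 : 1 ≤ h * (x * X) := by
      have : 1 ≤ (x : ℝ) * X := one_le_mul_of_one_le_of_one_le hxr hX1
      exact one_le_mul_of_one_le_of_one_le hhr this
    have g2 : h * (√m * x) ≤ √m * (h * (x * X)) := by
      have : √m * (h * (x * X)) = h * (√m * x) * X := by ring
      rw [this]
      exact le_mul_of_one_le_right (by positivity) hX1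
    have g3 : (K : ℝ) ≤ m * (h * (x * X)) := by
      have : m * (h * (x * X)) = m * (x * X) * h := by ring
      rw [this]
      exact hKm.trans (le_mul_of_one_le_right (by positivity) hhr)
    linarith
  have f5 : ‖∑ r ∈ R, ∑ s ∈ S, e (h / √a * (√(r : ℝ) * √(s : ℝ)))‖ ^ 2 ≤ D * (x ^ 3 * X ^ 2) * h := by
    refine key.trans ?_
    calc C0 * J * K * (1 + √((J : ℝ) / K) / (h / √a)) * (1 + h / √a * √((J : ℝ) * K) + K)
        = C0 * (J * K) * (1 + √((J : ℝ) / K) / (h / √a)) * (1 + h / √a * √((J : ℝ) * K) + K) := by ring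
      _ ≤ C0 * (m * x ^ 2) * ((1 + 2 * √m * √a) * X) * ((1 + √m + m) * (h * (x * X))) := by
          have h1 : 0 ≤ √((J : ℝ) / K) / (h / √a) := by positivity
          have h2 : 0 ≤ h / √a * √((J : ℝ) * K) := by positivity
          gcongr
      _ = D * (x ^ 3 * X ^ 2) * h := by rw [hD]; ring
  have f6 : x ^ 3 * X ^ 2 = ((x : ℝ) ^ (3 / 2 + ε)) ^ 2 := by
    rw [Real.rpow_add hxp, mul_pow, ← hX, ← Real.rpow_natCast ((x : ℝ) ^ (3 / 2 : ℝ)) 2, ← Real.rpow_mul hxp.le]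
    norm_num
  rw [f6] at f5
  have f7 : D * ((x : ℝ) ^ (3 / 2 + ε)) ^ 2 * h = (√D * (x : ℝ) ^ (3 / 2 + ε) * √(h : ℝ)) ^ 2 := by
    rw [mul_pow, mul_pow, Real.sq_sqrt hD0.le, Real.sq_sqrt (by linarith)]
  rw [f7] at f5
  exact (abs_le_of_sq_le_sq' f5 (by positivity)).2

theorem tri_block (a m : ℝ) (ha : 1 ≤ a) (hm : 1 ≤ m) : ∃ C2 : ℝ, 0 < C2 ∧ ∀ ε : ℝ, 0 ≤ ε → ∀ x J K : ℕ,
    1 ≤ x → 1 ≤ J → 1 ≤ K → (J : ℝ) * K ≤ m * (x : ℝ) ^ 2 → (J : ℝ) ≤ m * (x : ℝ) ^ (1 + ε) →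
    (K : ℝ) ≤ m * (x : ℝ) ^ (1 + ε) → (x : ℝ) ^ (1 - ε) ≤ 4 * K →
    ∀ R ⊆ Ioc J (2 * J), ∀ S ⊆ Ioc K (2 * K), ∀ β δ : ℝ, 0 < δ → δ ≤ 1 / 2 →
    ∑ r ∈ R, ∑ s ∈ S, tri δ (√(((r * s : ℕ) : ℝ) / a) - β) ≤
      δ * (#R * #S) + C2 * (x : ℝ) ^ (3 / 2 + ε) / √δ := by
  obtain ⟨C2, hC2, H⟩ := exp_bound a m ha hm
  refine ⟨20 * C2, by positivity, ?_⟩
  intro ε hε x J K hx hJ hK hJK hJm hKm hKx R hR S hS β δ hδ hδ2
  have key := tri_sum (R ×ˢ S) (fun _ => 1) (fun i => √(((i.1 * i.2 : ℕ) : ℝ) / a) - β) δ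
    (C2 * (x : ℝ) ^ (3 / 2 + ε)) 0 hδ hδ2 (by positivity) le_rfl (by
      intro h hh
      have h1 := H ε hε x J K hx hJ hK hJK hJm hKm hKx R hR S hS h hh
      have h2 : ∑ i ∈ R ×ˢ S, (((1 : ℝ) : ℝ) : ℂ) * e (h * (√(((i.1 * i.2 : ℕ) : ℝ) / a) - β)) =
          (∑ r ∈ R, ∑ s ∈ S, e (h / √a * (√(r : ℝ) * √(s : ℝ)))) * e (-(h * β)) := by
        rw [Finset.sum_product, Finset.sum_mul]
        refine Finset.sum_congr rfl fun r _ => ?_
        rw [Finset.sum_mul]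
        refine Finset.sum_congr rfl fun s _ => ?_
        rw [← Pool.Agent.H469R2.NK.e_add, Complex.ofReal_one, one_mul]
        congr 1
        push_cast
        rw [Real.sqrt_div (by positivity), Real.sqrt_mul (Nat.cast_nonneg r)]
        ring
      rw [h2, norm_mul, Pool.Agent.H469R2.NK.norm_e, mul_one, zero_div, add_zero]
      exact h1)
  have k1 := (abs_le.1 key).2
  simp only [one_mul, Finset.sum_const, Finset.card_product, nsmul_eq_mul, mul_one, zero_mul, add_zero] at k1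
  rw [Finset.sum_product] at k1
  push_cast at k1 ⊢
  have e1 : 20 * (C2 * (x : ℝ) ^ (3 / 2 + ε) / √δ) = 20 * C2 * (x : ℝ) ^ (3 / 2 + ε) / √δ := by ring
  rw [e1] at k1
  linarith

/-! ### Counting the integers `n` -/

/-- the number of the `n` with `0 < N - F(n) ≤ C` -/
noncomputable def nu (a b : ℤ) (x1 x C N : ℕ) : ℕ :=
  #((Ioc x1 x).filter (fun n : ℕ => 0 < (N : ℤ) - fv a b 0 n ∧ (N : ℤ) - fv a b 0 n ≤ C))

lemma near_int (a b : ℤ) (ha : 0 < a) (R x1 x C N n : ℕ) (hx1 : x ≤ R * x1) (hbx : R * b.natAbs ≤ x) (hC : 1 ≤ C)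
    (hx : 1 ≤ x) (hn : x1 < n) (h0 : 0 < (N : ℤ) - fv a b 0 n) (h1 : (N : ℤ) - fv a b 0 n ≤ C) :
    |(n : ℝ) - (√((N : ℝ) / a) - b / (2 * a))| ≤ 2 * R * (1 + (b : ℝ) ^ 2) * (C / x) := by
  have har : (1 : ℝ) ≤ a := by exact_mod_cast ha
  have hxr : (1 : ℝ) ≤ x := by exact_mod_cast hx
  have hCr : (1 : ℝ) ≤ C := by exact_mod_cast hC
  have hx1r : (x : ℝ) ≤ R * x1 := by exact_mod_cast hx1
  have hnr : (x1 : ℝ) ≤ n := by exact_mod_cast hn.le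
  have hR0 : (0 : ℝ) ≤ R := Nat.cast_nonneg _
  have hRn : (x : ℝ) ≤ R * n := hx1r.trans (mul_le_mul_of_nonneg_left hnr hR0)
  have hbr : (R : ℝ) * |(b : ℝ)| ≤ x := by
    have : ((R * b.natAbs : ℕ) : ℝ) ≤ x := by exact_mod_cast hbx
    rw [Nat.cast_mul, Nat.cast_natAbs, Int.cast_abs] at this
    exact this
  have hRpos : (0 : ℝ) < R := by
    rcases hR0.lt_or_eq with h | h
    · exact h
    · rw [← h] at hRn; linarith
  have hbn : |(b : ℝ)| ≤ n := by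
    have := hbr.trans hRn
    exact le_of_mul_le_mul_left this hRpos
  obtain ⟨v, hv⟩ : ∃ v : ℝ, v = n + b / (2 * a) := ⟨_, rfl⟩
  have hv1 : (n : ℝ) / 2 ≤ v := by
    have : |(b : ℝ) / (2 * a)| ≤ n / 2 := by
      rw [abs_div, abs_of_pos (by linarith : (0 : ℝ) < 2 * a), div_le_div_iff₀ (by linarith) (by norm_num)]
      nlinarith [abs_nonneg (b : ℝ)]
    have := (abs_le.1 this).1
    rw [hv]; linarith
  have hnpos : (0 : ℝ) < n := by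
    have : 0 < n := by omega
    exact_mod_cast this
  have h0r : (0 : ℝ) < (N : ℝ) - (a * n ^ 2 + b * n) := by
    have : ((0 : ℤ) : ℝ) < (((N : ℤ) - fv a b 0 n : ℤ) : ℝ) := by exact_mod_cast h0
    unfold fv at this
    push_cast at this
    linarith
  have h1r : (N : ℝ) - (a * n ^ 2 + b * n) ≤ C := by
    have : (((N : ℤ) - fv a b 0 n : ℤ) : ℝ) ≤ ((C : ℤ) : ℝ) := by exact_mod_cast h1
    unfold fv at this
    push_cast at this
    linarith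
  obtain ⟨w, hw⟩ : ∃ w : ℝ, w = √((N : ℝ) / a) := ⟨_, rfl⟩
  have hw0 : 0 ≤ w := by rw [hw]; exact Real.sqrt_nonneg _
  have hw2 : w ^ 2 = N / a := by rw [hw, Real.sq_sqrt (by positivity)]
  have e1 : (w - v) * (w + v) = ((N : ℝ) - (a * n ^ 2 + b * n)) / a - b ^ 2 / (4 * a ^ 2) := by
    have : (w - v) * (w + v) = w ^ 2 - v ^ 2 := by ring
    rw [this, hw2, hv]
    field_simp
    ring
  have e2 : |(w - v) * (w + v)| ≤ (1 + (b : ℝ) ^ 2) * C := by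
    rw [e1]
    have q1 : 0 ≤ ((N : ℝ) - (a * n ^ 2 + b * n)) / a := by positivity
    have q2 : ((N : ℝ) - (a * n ^ 2 + b * n)) / a ≤ C := by
      rw [div_le_iff₀ (by linarith)]
      nlinarith
    have q3 : 0 ≤ (b : ℝ) ^ 2 / (4 * a ^ 2) := by positivity
    have q4 : (b : ℝ) ^ 2 / (4 * a ^ 2) ≤ b ^ 2 * C := by
      rw [div_le_iff₀ (by positivity)]
      have : (1 : ℝ) ≤ C * (4 * a ^ 2) := by nlinarith
      nlinarith [sq_nonneg (b : ℝ)]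
    rw [abs_le]
    constructor <;> nlinarith
  rw [abs_mul] at e2
  have e3 : (n : ℝ) / 2 ≤ |w + v| := by
    rw [abs_of_nonneg (by linarith)]; linarith
  have e4 : |w - v| * (n / 2) ≤ (1 + (b : ℝ) ^ 2) * C :=
    (mul_le_mul_of_nonneg_left e3 (abs_nonneg _)).trans e2
  have e5 : (n : ℝ) - (√((N : ℝ) / a) - b / (2 * a)) = -(w - v) := by rw [hv, ← hw]; ring
  rw [e5, abs_neg]
  have e6 : 2 * R * (1 + (b : ℝ) ^ 2) * (C / x) = 2 * R * ((1 + (b : ℝ) ^ 2) * C) / x := by ring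
  rw [e6, le_div_iff₀ (by linarith)]
  calc |w - v| * x ≤ |w - v| * (R * n) := mul_le_mul_of_nonneg_left hRn (abs_nonneg _)
    _ = 2 * R * (|w - v| * (n / 2)) := by ring
    _ ≤ 2 * R * ((1 + (b : ℝ) ^ 2) * C) := mul_le_mul_of_nonneg_left e4 (by positivity)

lemma nu_le (a b : ℤ) (ha : 0 < a) (R x1 x C N : ℕ) (hx1 : x ≤ R * x1) (hbx : R * b.natAbs ≤ x) (hC : 1 ≤ C)
    (hx : 1 ≤ x) (δ : ℝ) (hδ : δ = 2 * R * (1 + (b : ℝ) ^ 2) * (C / x)) (hδ1 : δ ≤ 1 / 4) (hδ0 : 0 < δ) :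
    (nu a b x1 x C N : ℝ) ≤ 2 * tri (2 * δ) (√((N : ℝ) / a) - b / (2 * a)) := by
  obtain ⟨u, hu⟩ : ∃ u : ℝ, u = √((N : ℝ) / a) - b / (2 * a) := ⟨_, rfl⟩
  rw [← hu]
  have hnear : ∀ n ∈ (Ioc x1 x).filter (fun n : ℕ => 0 < (N : ℤ) - fv a b 0 n ∧ (N : ℤ) - fv a b 0 n ≤ C),
      |(n : ℝ) - u| ≤ δ := by
    intro n hn
    rw [mem_filter, mem_Ioc] at hn
    have := near_int a b ha R x1 x C N n hx1 hbx hC hx hn.1.1 hn.2.1 hn.2.2
    rw [hu, hδ]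
    exact this
  have hround : ∀ n : ℕ, |(n : ℝ) - u| ≤ δ → round u = (n : ℤ) := by
    intro n hn
    rw [round_eq]
    have h := abs_le.1 hn
    rw [Int.floor_eq_iff]
    push_cast
    constructor <;> linarith
  unfold nu
  rcases Finset.eq_empty_or_nonempty ((Ioc x1 x).filter
    (fun n : ℕ => 0 < (N : ℤ) - fv a b 0 n ∧ (N : ℤ) - fv a b 0 n ≤ C)) with he | ⟨n, hn⟩
  · rw [he]
    have : 0 ≤ tri (2 * δ) u := le_max_left _ _
    simp only [Finset.card_empty, Nat.cast_zero]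
    linarith
  · have h1 : #((Ioc x1 x).filter (fun n : ℕ => 0 < (N : ℤ) - fv a b 0 n ∧ (N : ℤ) - fv a b 0 n ≤ C)) ≤ 1 := by
      rw [Finset.card_le_one]
      intro i hi j hj
      have a1 := hround i (hnear i hi)
      have a2 := hround j (hnear j hj)
      rw [a1] at a2
      exact_mod_cast a2
    have h2 : (1 : ℝ) / 2 ≤ tri (2 * δ) u := by
      unfold tri
      refine le_trans ?_ (le_max_right _ _)
      rw [hround n (hnear n hn)]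
      have h3 := hnear n hn
      rw [abs_sub_comm] at h3
      push_cast
      have h4 : |u - n| / (2 * δ) ≤ 1 / 2 := by
        rw [div_le_iff₀ (by linarith)]
        linarith
      linarith
    have h3 : (#((Ioc x1 x).filter (fun n : ℕ => 0 < (N : ℤ) - fv a b 0 n ∧ (N : ℤ) - fv a b 0 n ≤ C)) : ℝ) ≤ 1 := by
      exact_mod_cast h1
    linarith

lemma nu_le' (a b : ℤ) (ha : 0 < a) (R x1 x C N : ℕ) (hx1 : x ≤ R * x1) (hbx : R * b.natAbs ≤ x) (hC : 1 ≤ C)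
    (hx : 1 ≤ x) (δ : ℝ) (hδ : δ = 2 * R * (1 + (b : ℝ) ^ 2) * (C / x)) (hδ1 : 1 / 4 ≤ δ) :
    (nu a b x1 x C N : ℝ) ≤ 6 * δ := by
  obtain ⟨u, hu⟩ : ∃ u : ℝ, u = √((N : ℝ) / a) - b / (2 * a) := ⟨_, rfl⟩
  have hnear : ∀ n ∈ (Ioc x1 x).filter (fun n : ℕ => 0 < (N : ℤ) - fv a b 0 n ∧ (N : ℤ) - fv a b 0 n ≤ C),
      |(n : ℝ) - u| ≤ δ := by
    intro n hn
    rw [mem_filter, mem_Ioc] at hn
    have := near_int a b ha R x1 x C N n hx1 hbx hC hx hn.1.1 hn.2.1 hn.2.2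
    rw [hu, hδ]
    exact this
  unfold nu
  have h1 : #((Ioc x1 x).filter (fun n : ℕ => 0 < (N : ℤ) - fv a b 0 n ∧ (N : ℤ) - fv a b 0 n ≤ C)) ≤
      #(Icc ⌈u - δ⌉ ⌊u + δ⌋) := by
    apply Finset.card_le_card_of_injOn (fun n : ℕ => (n : ℤ))
    · intro n hn
      have h := abs_le.1 (hnear n hn)
      simp only [Finset.coe_Icc, Set.mem_Icc]
      rw [Int.ceil_le, Int.le_floor]
      push_cast
      constructor <;> linarith
    · intro i _ j _ hij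
      simpa using hij
  have h2 : (#(Icc ⌈u - δ⌉ ⌊u + δ⌋) : ℝ) ≤ 2 * δ + 1 := by
    rw [Int.card_Icc]
    have h3 : (⌊u + δ⌋ : ℝ) ≤ u + δ := Int.floor_le _
    have h4 : u - δ ≤ (⌈u - δ⌉ : ℝ) := Int.le_ceil _
    rcases le_or_gt 0 (⌊u + δ⌋ + 1 - ⌈u - δ⌉) with h | h
    · have h5 : (((⌊u + δ⌋ + 1 - ⌈u - δ⌉).toNat : ℤ) : ℝ) = ((⌊u + δ⌋ + 1 - ⌈u - δ⌉ : ℤ) : ℝ) := by
        rw [Int.toNat_of_nonneg h]
      have h6 : (((⌊u + δ⌋ + 1 - ⌈u - δ⌉).toNat : ℕ) : ℝ) = (⌊u + δ⌋ : ℝ) + 1 - ⌈u - δ⌉ := by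
        rw [← Int.cast_natCast, h5]; push_cast; ring
      rw [h6]; linarith
    · rw [Int.toNat_of_nonpos h.le]
      simp only [Nat.cast_zero]
      linarith
  have h3 : (#((Ioc x1 x).filter (fun n : ℕ => 0 < (N : ℤ) - fv a b 0 n ∧ (N : ℤ) - fv a b 0 n ≤ C)) : ℝ) ≤
      (#(Icc ⌈u - δ⌉ ⌊u + δ⌋) : ℝ) := by exact_mod_cast h1
  linarith

end Pool.Agent.N792.Gap
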