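import Mathlib
import Pool.Agent.N138.Gap.G2

set_option autoImplicit false
set_option maxHeartbeats 4000000

namespace Pool.Agent.N792.Gap

open Finset Filter Topology

/-! ### Dyadic decomposition -/

open Classical in
/-- the rough numbers in a dyadic block -/
noncomputable def T (z i : ℕ) : Finset ℕ := (Ioc (2 ^ i) (2 * 2 ^ i)).filter (Rough z)

/-- the exponents of the dyadic blocks -/
def Ix (y M : ℕ) : Finset ℕ := Icc (Nat.log 2 y - 1) (Nat.log 2 (M / y))

/-- the pairs of dyadic blocks -/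
def Px (y M : ℕ) : Finset (ℕ × ℕ) := (Ix y M ×ˢ Ix y M).filter (fun q => 2 ^ (q.1 + q.2) ≤ M)

lemma rough_dvd {z N j : ℕ} (h : Rough z N) (hj : j ∣ N) : Rough z j :=
  ⟨fun h0 => h.1 (by rw [h0] at hj; exact Nat.eq_zero_of_zero_dvd hj), fun p hp hd => h.2 p hp (hd.trans hj)⟩

open Classical in
lemma mem_T {z j : ℕ} (hj : 2 ≤ j) (h : Rough z j) : j ∈ T z (Nat.log 2 (j - 1)) := by
  unfold T
  rw [mem_filter, mem_Ioc]
  have h1 : 2 ^ Nat.log 2 (j - 1) ≤ j - 1 := Nat.pow_log_le_self 2 (by omega)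
  have h2 : j - 1 < 2 ^ (Nat.log 2 (j - 1) + 1) := Nat.lt_pow_succ_log_self (by norm_num) _
  rw [pow_succ] at h2
  exact ⟨⟨by omega, by omega⟩, h⟩

lemma mem_Ix {y M i j k : ℕ} (hy : 1 ≤ y) (hj : y ≤ j) (hj2 : 2 ≤ j) (hk : y ≤ k) (hjk : j * k ≤ M)
    (hi : i = Nat.log 2 (j - 1)) : i ∈ Ix y M := by
  have h1 : 2 ^ i ≤ j - 1 := by rw [hi]; exact Nat.pow_log_le_self 2 (by omega)
  have h2 : j - 1 < 2 ^ (i + 1) := by rw [hi]; exact Nat.lt_pow_succ_log_self (by norm_num) _
  unfold Ix
  rw [mem_Icc]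
  constructor
  · have h3 : y ≤ 2 ^ (i + 1) := by omega
    have h4 : Nat.log 2 y ≤ i + 1 := by
      have := Nat.log_mono_right (b := 2) h3
      rwa [Nat.log_pow (by norm_num)] at this
    omega
  · apply Nat.le_log_of_pow_le (by norm_num)
    rw [Nat.le_div_iff_mul_le (by omega)]
    calc 2 ^ i * y ≤ j * k := Nat.mul_le_mul (by omega) hk
      _ ≤ M := hjk

open Classical in
lemma gp_le (z y M N : ℕ) (hy : 2 ≤ y) (hN : N ≤ M) :
    gp z y N ≤ ∑ q ∈ Px y M, ∑ r ∈ T z q.1, ∑ s ∈ T z q.2, (if r * s = N then (1 : ℝ) else 0) := by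
  have hnn : 0 ≤ ∑ q ∈ Px y M, ∑ r ∈ T z q.1, ∑ s ∈ T z q.2, (if r * s = N then (1 : ℝ) else 0) := by
    refine Finset.sum_nonneg fun q _ => Finset.sum_nonneg fun r _ => Finset.sum_nonneg fun s _ => ?_
    split_ifs <;> norm_num
  unfold gp rg
  by_cases hR : Rough z N
  swap
  · rw [if_neg hR, zero_mul]; exact hnn
  rw [if_pos hR, one_mul]
  have hN0 : N ≠ 0 := hR.1
  obtain ⟨D, hD⟩ : ∃ D : Finset ℕ, D = N.divisors.filter (fun j => y ≤ j ∧ y ≤ N / j) := ⟨_, rfl⟩
  have hDm : ∀ j ∈ D, j ∣ N ∧ y ≤ j ∧ y ≤ N / j := by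
    intro j hj
    rw [hD, mem_filter, Nat.mem_divisors] at hj
    exact ⟨hj.1.1, hj.2⟩
  have h1 : ∀ j ∈ D, (1 : ℝ) ≤ ∑ q ∈ Px y M, ∑ r ∈ T z q.1, ∑ s ∈ T z q.2,
      (if r = j ∧ s = N / j then (1 : ℝ) else 0) := by
    intro j hj
    obtain ⟨hd, hyj, hyk⟩ := hDm j hj
    have hjk : j * (N / j) = N := Nat.mul_div_cancel' hd
    have hkd : N / j ∣ N := Nat.div_dvd_of_dvd hd
    have hjk' : j * (N / j) ≤ M := by omega
    have hkj' : N / j * j ≤ M := by rw [mul_comm]; exact hjk'
    have hi1 := mem_Ix (M := M) (by omega) hyj (by omega) hyk hjk' rfl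
    have hi2 := mem_Ix (M := M) (by omega) hyk (by omega) hyj hkj' rfl
    have hq : (Nat.log 2 (j - 1), Nat.log 2 (N / j - 1)) ∈ Px y M := by
      unfold Px
      rw [mem_filter, mem_product]
      refine ⟨⟨hi1, hi2⟩, ?_⟩
      have g1 : 2 ^ Nat.log 2 (j - 1) ≤ j - 1 := Nat.pow_log_le_self 2 (by omega)
      have g2 : 2 ^ Nat.log 2 (N / j - 1) ≤ N / j - 1 := Nat.pow_log_le_self 2 (by omega)
      calc 2 ^ (Nat.log 2 (j - 1) + Nat.log 2 (N / j - 1)) = 2 ^ Nat.log 2 (j - 1) * 2 ^ Nat.log 2 (N / j - 1) := pow_add _ _ _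
        _ ≤ j * (N / j) := Nat.mul_le_mul (by omega) (by omega)
        _ ≤ M := hjk'
    have hr := mem_T (z := z) (j := j) (by omega) (rough_dvd hR hd)
    have hs := mem_T (z := z) (j := N / j) (by omega) (rough_dvd hR hkd)
    calc (1 : ℝ) = (if j = j ∧ N / j = N / j then (1 : ℝ) else 0) := by simp
      _ ≤ ∑ s ∈ T z (Nat.log 2 (N / j - 1)), (if j = j ∧ s = N / j then (1 : ℝ) else 0) :=
          Finset.single_le_sum (f := fun s => (if j = j ∧ s = N / j then (1 : ℝ) else 0))
            (fun s _ => by split_ifs <;> norm_num) hs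
      _ ≤ ∑ r ∈ T z (Nat.log 2 (j - 1)), ∑ s ∈ T z (Nat.log 2 (N / j - 1)),
            (if r = j ∧ s = N / j then (1 : ℝ) else 0) :=
          Finset.single_le_sum (f := fun r => ∑ s ∈ T z (Nat.log 2 (N / j - 1)),
            (if r = j ∧ s = N / j then (1 : ℝ) else 0))
            (fun r _ => Finset.sum_nonneg fun s _ => by split_ifs <;> norm_num) hr
      _ ≤ _ := Finset.single_le_sum (f := fun q : ℕ × ℕ => ∑ r ∈ T z q.1, ∑ s ∈ T z q.2,
            (if r = j ∧ s = N / j then (1 : ℝ) else 0))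
            (fun q _ => Finset.sum_nonneg fun r _ => Finset.sum_nonneg fun s _ => by split_ifs <;> norm_num) hq
  rw [← hD]
  calc (#D : ℝ) = ∑ j ∈ D, (1 : ℝ) := by simp
    _ ≤ ∑ j ∈ D, ∑ q ∈ Px y M, ∑ r ∈ T z q.1, ∑ s ∈ T z q.2, (if r = j ∧ s = N / j then (1 : ℝ) else 0) :=
        Finset.sum_le_sum h1
    _ = ∑ q ∈ Px y M, ∑ r ∈ T z q.1, ∑ s ∈ T z q.2, ∑ j ∈ D, (if r = j ∧ s = N / j then (1 : ℝ) else 0) := by
        rw [Finset.sum_comm]
        refine Finset.sum_congr rfl fun q _ => ?_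
        rw [Finset.sum_comm]
        refine Finset.sum_congr rfl fun r _ => ?_
        rw [Finset.sum_comm]
    _ ≤ _ := by
        refine Finset.sum_le_sum fun q _ => Finset.sum_le_sum fun r _ => Finset.sum_le_sum fun s _ => ?_
        have e1 : ∑ j ∈ D, (if r = j ∧ s = N / j then (1 : ℝ) else 0) =
            if r ∈ D ∧ s = N / r then 1 else 0 := by
          by_cases hrD : r ∈ D
          · rw [Finset.sum_eq_single r]
            · simp [hrD]
            · intro j _ hj
              rw [if_neg (fun h => hj h.1.symm)]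
            · intro h; exact absurd hrD h
          · rw [if_neg (fun h => hrD h.1)]
            apply Finset.sum_eq_zero
            intro j hj
            rw [if_neg]
            rintro ⟨h, -⟩
            rw [h] at hrD
            exact hrD hj
        rw [e1]
        by_cases hc : r ∈ D ∧ s = N / r
        · have : r * s = N := by rw [hc.2]; exact Nat.mul_div_cancel' (hDm r hc.1).1
          rw [if_pos hc, if_pos this]
        · rw [if_neg hc]
          split_ifs <;> norm_num

/-- the sum over `c` and `n` -/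
lemma sum_le (a b : ℤ) (z y M x1 x C : ℕ) (hy : 2 ≤ y)
    (hM : ∀ c ∈ Icc 1 C, ∀ n ∈ Ioc x1 x, (fv a b c n).toNat ≤ M) :
    ∑ c ∈ Icc 1 C, Lc a b x1 x c (gp z y) ≤
      ∑ q ∈ Px y M, ∑ r ∈ T z q.1, ∑ s ∈ T z q.2, (nu a b x1 x C (r * s) : ℝ) := by
  classical
  calc ∑ c ∈ Icc 1 C, Lc a b x1 x c (gp z y)
      ≤ ∑ c ∈ Icc 1 C, ∑ n ∈ Ioc x1 x, ∑ q ∈ Px y M, ∑ r ∈ T z q.1, ∑ s ∈ T z q.2,
          (if r * s = (fv a b c n).toNat then (1 : ℝ) else 0) := by
        refine Finset.sum_le_sum fun c hc => ?_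
        unfold Lc
        exact Finset.sum_le_sum fun n hn => gp_le z y M _ hy (hM c hc n hn)
    _ = ∑ q ∈ Px y M, ∑ r ∈ T z q.1, ∑ s ∈ T z q.2, ∑ n ∈ Ioc x1 x, ∑ c ∈ Icc 1 C,
          (if r * s = (fv a b c n).toNat then (1 : ℝ) else 0) := by
        have e1 : ∀ c : ℕ, ∑ n ∈ Ioc x1 x, ∑ q ∈ Px y M, ∑ r ∈ T z q.1, ∑ s ∈ T z q.2,
            (if r * s = (fv a b c n).toNat then (1 : ℝ) else 0) =
            ∑ q ∈ Px y M, ∑ r ∈ T z q.1, ∑ s ∈ T z q.2, ∑ n ∈ Ioc x1 x,
            (if r * s = (fv a b c n).toNat then (1 : ℝ) else 0) := by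
          intro c
          rw [Finset.sum_comm]
          refine Finset.sum_congr rfl fun q _ => ?_
          rw [Finset.sum_comm]
          refine Finset.sum_congr rfl fun r _ => ?_
          rw [Finset.sum_comm]
        rw [Finset.sum_congr rfl fun c _ => e1 c, Finset.sum_comm]
        refine Finset.sum_congr rfl fun q _ => ?_
        rw [Finset.sum_comm]
        refine Finset.sum_congr rfl fun r _ => ?_
        rw [Finset.sum_comm]
        refine Finset.sum_congr rfl fun s _ => ?_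
        rw [Finset.sum_comm]
    _ ≤ _ := by
        refine Finset.sum_le_sum fun q _ => Finset.sum_le_sum fun r hr => Finset.sum_le_sum fun s hs => ?_
        have hrs : 0 < r * s := by
          unfold T at hr hs
          rw [mem_filter] at hr hs
          exact Nat.mul_pos (Nat.pos_of_ne_zero hr.2.1) (Nat.pos_of_ne_zero hs.2.1)
        unfold nu
        rw [Finset.card_filter]
        push_cast
        refine Finset.sum_le_sum fun n _ => ?_
        have hc : ∀ c : ℕ, r * s = (fv a b c n).toNat → (c : ℤ) = ((r * s : ℕ) : ℤ) - fv a b 0 n := by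
          intro c h
          unfold fv at h ⊢
          have : ((r * s : ℕ) : ℤ) = a * (n : ℤ) ^ 2 + b * n + c := by
            rw [h]
            apply Int.toNat_of_nonneg
            by_contra hneg
            rw [Int.toNat_of_nonpos (by omega)] at h
            omega
          rw [this]; ring
        by_cases hex : ∃ c ∈ Icc 1 C, r * s = (fv a b c n).toNat
        · obtain ⟨c, hc1, hc2⟩ := hex
          have h3 := hc c hc2
          rw [mem_Icc] at hc1
          rw [if_pos]
          · have e2 : ∑ c' ∈ Icc 1 C, (if r * s = (fv a b c' n).toNat then (1 : ℝ) else 0) ≤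
                ∑ c' ∈ Icc 1 C, (if c' = c then (1 : ℝ) else 0) := by
              refine Finset.sum_le_sum fun c' _ => ?_
              by_cases h4 : r * s = (fv a b c' n).toNat
              · have h5 := hc c' h4
                rw [if_pos h4, if_pos]
                have : (c' : ℤ) = c := by rw [h5, h3]
                exact_mod_cast this
              · rw [if_neg h4]; split_ifs <;> norm_num
            refine e2.trans ?_
            rw [Finset.sum_ite_eq']
            split_ifs <;> norm_num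
          · push_cast at h3
            constructor
            · have : (0 : ℤ) < c := by exact_mod_cast hc1.1
              linarith
            · have : (c : ℤ) ≤ C := by exact_mod_cast hc1.2
              linarith
        · push Not at hex
          have : ∑ c ∈ Icc 1 C, (if r * s = (fv a b c n).toNat then (1 : ℝ) else 0) = 0 := by
            apply Finset.sum_eq_zero
            intro c hc'
            rw [if_neg (hex c hc')]
          rw [this]
          split_ifs <;> norm_num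

/-- the sum over all integers -/
lemma sum_le' (z y M N1 N2 : ℕ) (hy : 2 ≤ y) (hM : N2 ≤ M) :
    ∑ N ∈ Ioc N1 N2, gp z y N ≤ ∑ q ∈ Px y M, ((#(T z q.1) : ℝ) * #(T z q.2)) := by
  classical
  calc ∑ N ∈ Ioc N1 N2, gp z y N
      ≤ ∑ N ∈ Ioc N1 N2, ∑ q ∈ Px y M, ∑ r ∈ T z q.1, ∑ s ∈ T z q.2, (if r * s = N then (1 : ℝ) else 0) :=
        Finset.sum_le_sum fun N hN => gp_le z y M N hy ((mem_Ioc.1 hN).2.trans hM)
    _ = ∑ q ∈ Px y M, ∑ r ∈ T z q.1, ∑ s ∈ T z q.2, ∑ N ∈ Ioc N1 N2, (if r * s = N then (1 : ℝ) else 0) := by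
        rw [Finset.sum_comm]
        refine Finset.sum_congr rfl fun q _ => ?_
        rw [Finset.sum_comm]
        refine Finset.sum_congr rfl fun r _ => ?_
        rw [Finset.sum_comm]
    _ ≤ ∑ q ∈ Px y M, ∑ r ∈ T z q.1, ∑ s ∈ T z q.2, (1 : ℝ) := by
        refine Finset.sum_le_sum fun q _ => Finset.sum_le_sum fun r hr => Finset.sum_le_sum fun s hs => ?_
        rw [Finset.sum_ite_eq]
        split_ifs <;> norm_num
    _ = _ := by simp

lemma sum_pow_le (y M : ℕ) (hM : 1 ≤ M) : ∑ q ∈ Px y M, (2 : ℝ) ^ (q.1 + q.2) ≤ #(Ix y M) * (2 * M) := by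
  unfold Px
  rw [Finset.sum_filter, Finset.sum_product]
  calc ∑ i ∈ Ix y M, ∑ l ∈ Ix y M, (if 2 ^ (i + l) ≤ M then (2 : ℝ) ^ (i + l) else 0) ≤ ∑ i ∈ Ix y M, (2 * (M : ℝ)) := by
        refine Finset.sum_le_sum fun i _ => ?_
        rw [← Finset.sum_filter]
        have h1 : ∑ l ∈ (Ix y M).filter (fun l => 2 ^ (i + l) ≤ M), (2 : ℝ) ^ (i + l) =
            ∑ k ∈ ((Ix y M).filter (fun l => 2 ^ (i + l) ≤ M)).image (fun l => i + l), (2 : ℝ) ^ k := by
          rw [Finset.sum_image]
          intro u _ v _ h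
          simpa using h
        rw [h1]
        have h2 : ((Ix y M).filter (fun l => 2 ^ (i + l) ≤ M)).image (fun l => i + l) ⊆ range (Nat.log 2 M + 1) := by
          intro k hk
          rw [mem_image] at hk
          obtain ⟨l, hl, rfl⟩ := hk
          rw [mem_filter] at hl
          rw [mem_range]
          have := Nat.le_log_of_pow_le (by norm_num) hl.2
          omega
        refine (Finset.sum_le_sum_of_subset_of_nonneg h2 (fun _ _ _ => by positivity)).trans ?_
        have h3 : ∑ k ∈ range (Nat.log 2 M + 1), (2 : ℝ) ^ k ≤ 2 ^ (Nat.log 2 M + 1) := by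
          rw [geom_sum_eq (by norm_num)]
          norm_num
        refine h3.trans ?_
        have h4 : 2 ^ Nat.log 2 M ≤ M := Nat.pow_log_le_self 2 (by omega)
        have h5 : ((2 ^ Nat.log 2 M : ℕ) : ℝ) ≤ M := by exact_mod_cast h4
        push_cast at h5
        rw [pow_succ]
        linarith
    _ = _ := by rw [Finset.sum_const, nsmul_eq_mul]

end Pool.Agent.N792.Gap
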